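import Pool.Agent.Run7.h527.TP.S
import Pool.Agent.Results.MP_cbe134_nt.MultiplicativeValues

/-!
# MP_cbe134_nt: the depth graded space near aliquot sums, cototients and arithmetic derivatives

A pattern in `k` variables is a list of letters `b + u_1 s_1 + ... + u_k s_k`; at a tuple `s` of natural numbers it gives an
index. The first letters may be constant. Let `Λ` be a finite set of admissible patterns of the same weight and of depth at
most `r`. We consider the relations `∑ c_w ζ(w(s)) = 0`, `w ∈ Λ`, with integers `c_w` of absolute value at most `C ^ T`, where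
`T` is the size of `s`: the relations of exponential height between the classes of the values of depth `r` in
`Fil_r / Fil_{r - 1}`.

Let each of `F_1(m), ..., F_k(m)` be the sum of the proper divisors of `m`, the cototient `m - φ(m)`, the arithmetic derivative
`m'` (with `p' = 1` for primes and Leibniz' rule), or a positive combination `α m + β f(m)` with `f = σ`, `φ` or the arithmetic
derivative.

(1) Let `0 ≤ θ`, `τ ≤ 1`, `k (θ + 1 - τ) < 1` (for `k = 1`: `θ < τ`; for `k = 2`: `τ > 1 / 2 + θ`). For all `m` in `[1, N]^k`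
such that every `m_i` has two prime factors `p ≠ q`, not dividing `m_i / (p q) ≥ 2`, with `p q ≥ m_i^τ`, but at most
`N^(k - δ)` of them, the following holds for ALL tuples `s` near the tuple of the values,
`|s_i - F_i(m_i)| ≤ F_i(m_i)^θ`, in a cone `T ≤ s_i ≤ κ T`: every such relation splits: its part of depth `r` is a
combination `∑ ρ(u, v) (u ⧢ v)` of shuffles of constant indices `u` and patterns `v` whose first letter is not constant,
where for every `v` the number `∑_u ρ(u, v) ζ(u)` is in the span of the values of the same weight and of smaller depth. If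
the patterns of depth `r` have at most one constant letter in front then `c_w = 0` for all `w` of depth `r`.

(2) One variable: for every `ε > 0` there is `θ > 0` such that for ALL `m ≤ N` but `ε N`, for ALL integers `s ≥ 1` with
`|s - F(m)| ≤ F(m)^θ`, the same holds for the relations with coefficients at most `C ^ s`.

Proof. Write `m = j p q`. Then `F(m) = a p q + b (p + q) + c` with integers `a ≠ 0`, `b`, `c` which depend on `j` only, and
`(a p + b) (a q + b) = a F(m) + b² - a c`. So for given `j ≤ N^(1 - τ)` every value is taken for at most `N^ε` pairs `p`, `q`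
(the tool `Run7/h527/TP`). The exceptional tuples of all scales (starting theorem `ManyVariables`) together with their
windows have a power saving. For small `τ` all but `ε N` integers have two such primes, by the second moment of the number of
the prime factors in `(N^(τ / 2), N^(1 / 8))`.
-/

set_option autoImplicit false

namespace Pool.Agent.Results.MP_cbe134_nt.AliquotSums

open Pool.Agent.Results.MP_cbe134_nt.ManyVariables (mzv Letter index AdmissiblePattern Splits exceptional constantPart)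
open Pool.Agent.Results.MP_cbe134_nt.MultiplicativeValues (AllSplit allSplit_mono pow_bound)
open Run7.h527.TP (Bil Two keep_scales keep_one aliquot cototient deriv sig comb)

/-- (1) Let `Λ` be a finite set of admissible patterns in `k ≥ 1` variables of the same weight `S` and of depth at most `r`,
`κ` a natural number, `C` a real number, `F_1, ..., F_k` functions of the class `Bil`, `θ ≥ 0`, `τ ≤ 1`,
`k (θ + 1 - τ) < 1`. There is `δ > 0` such that for all large `N` and all tuples `m` of integers in `[1, N]` with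
`Two τ (m_i)` for all `i` but at most `N^(k - δ)` of them: for ALL tuples `s` of natural numbers with
`|s_i - F_i(m_i)| ≤ F_i(m_i)^θ` and all `T ≥ 1` with `T ≤ s_i ≤ κ T` for all `i`, every relation `∑ c_w ζ(w(s)) = 0`, `w ∈ Λ`,
with integers `c_w` of absolute value at most `C ^ T` splits, and `c_w = 0` for all `w` of depth `r` if the patterns of depth
`r` have at most one constant letter in front. (2) For every `ε > 0` there is `θ > 0` such that for all `Λ` in one variable,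
all `C` and all `F` of the class `Bil`, for all large `N` and ALL `m ≤ N` but at most `ε N` of them this holds for all integers
`s ≥ 1` with `|s - F(m)| ≤ F(m)^θ` and coefficients at most `C ^ s`. (3) The sum of the proper divisors, the cototient, the
arithmetic derivative and their positive combinations with the identity are in `Bil`. -/
theorem result :
    (∀ {k : ℕ}, 1 ≤ k → ∀ (r : ℕ) (S : Letter k) (Λ : Finset (List (Letter k))), (∀ w ∈ Λ, AdmissiblePattern w) →
      (∀ w ∈ Λ, w.length ≤ r) → (∀ w ∈ Λ, w.sum = S) → ∀ (κ : ℕ) (C : ℝ) (F : Fin k → ℕ → ℕ), (∀ i, Bil (F i)) →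
      ∀ θ τ : ℝ, 0 ≤ θ → τ ≤ 1 → k * (θ + 1 - τ) < 1 → ∃ δ : ℝ, 0 < δ ∧ ∃ N₀ : ℕ, ∀ N : ℕ, N₀ ≤ N →
      ({m : Fin k → ℕ | (∀ i, 1 ≤ m i ∧ m i ≤ N ∧ Two τ (m i)) ∧ ¬ ∀ (s : Fin k → ℕ) (T : ℕ), 1 ≤ T →
        (∀ i, T ≤ s i ∧ s i ≤ κ * T) → (∀ i, |(s i : ℝ) - F i (m i)| ≤ (F i (m i) : ℝ) ^ θ) →
          AllSplit Λ r S (C ^ T) s}.ncard : ℝ) ≤ (N : ℝ) ^ ((k : ℝ) - δ)) ∧
    (∀ ε : ℝ, 0 < ε → ∃ θ : ℝ, 0 < θ ∧ ∀ (r : ℕ) (S : Letter 1) (Λ : Finset (List (Letter 1))),
      (∀ w ∈ Λ, AdmissiblePattern w) → (∀ w ∈ Λ, w.length ≤ r) → (∀ w ∈ Λ, w.sum = S) → ∀ (C : ℝ) (F : ℕ → ℕ), Bil F →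
      ∃ N₀ : ℕ, ∀ N : ℕ, N₀ ≤ N →
      ({m : ℕ | 1 ≤ m ∧ m ≤ N ∧ ¬ ∀ s : ℕ, 1 ≤ s → |(s : ℝ) - F m| ≤ (F m : ℝ) ^ θ →
          AllSplit Λ r S (C ^ s) (fun _ => s)}.ncard : ℝ) ≤ ε * N) ∧
    Bil aliquot ∧ Bil cototient ∧ Bil deriv ∧
      (∀ α β : ℤ, (∀ m : ℕ, 2 ≤ m → 0 < α * m + β * sig m) → Bil (comb α β sig)) ∧
      (∀ α β : ℤ, (∀ m : ℕ, 2 ≤ m → 0 < α * m + β * Nat.totient m) → Bil (comb α β Nat.totient)) ∧
      ∀ α β : ℤ, (∀ m : ℕ, 2 ≤ m → 0 < α * m + β * deriv m) → Bil (comb α β deriv) := by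
  have count : ∀ {k : ℕ} (r : ℕ) (S : Letter k) (Λ : Finset (List (Letter k))), (∀ w ∈ Λ, AdmissiblePattern w) →
      (∀ w ∈ Λ, w.length ≤ r) → (∀ w ∈ Λ, w.sum = S) → ∀ (κ : ℕ) (C : ℝ), ∃ K N₀ : ℕ, ∀ N : ℕ, N₀ ≤ N →
      {s : Fin k → ℕ | (∀ j, N ≤ s j ∧ s j ≤ (2 * κ) * N) ∧ ¬ AllSplit Λ r S (((max |C| 1) ^ 2) ^ N) s}.ncard ≤
        K * N ^ (k - 1) := by
    intro k r S Λ hΛ hr hS κ C
    obtain ⟨hfew, -, hone⟩ := ManyVariables.result r S Λ hΛ hr hS
    obtain ⟨K, hK⟩ := hfew (2 * κ)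
    obtain ⟨N₁, hN₁⟩ := hK ((max |C| 1) ^ 2)
    have hex : ∀ (N : ℕ) (H : ℝ), {s : Fin k → ℕ | (∀ j, N ≤ s j ∧ s j ≤ (2 * κ) * N) ∧ ¬ AllSplit Λ r S H s} ⊆
        exceptional Λ r S (2 * κ) N H := by
      rintro N H s ⟨hs1, hs2⟩
      unfold AllSplit at hs2
      push Not at hs2
      obtain ⟨c, hP1, hP2, hP3, hP4⟩ := hs2
      refine ⟨hs1, c, hP1, hP2, hP3, fun hP => ?_⟩
      obtain ⟨h6, w, hw, hcw⟩ := hP4 hP
      exact hcw (hone h6 c hP w hw)
    have hfin : ∀ (N : ℕ) (H : ℝ), (exceptional Λ r S (2 * κ) N H).Finite := by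
      intro N H
      refine (Set.Finite.pi (fun _ : Fin k => Set.finite_Iic (2 * κ * N))).subset ?_
      intro s hs j _
      exact (hs.1 j).2
    exact ⟨K, N₁, fun N hN => (Set.ncard_le_ncard (hex N _) (hfin N _)).trans (hN₁ N hN)⟩
  refine ⟨fun {k} hk r S Λ hΛ hr hS κ C F hF θ τ hθ hτ hθk => ?_, fun ε hε => ?_, Run7.h527.TP.examples⟩
  · obtain ⟨δ, hδ, N₀, hN₀⟩ := keep_scales hk κ (fun T s => ¬ AllSplit Λ r S (C ^ T) s)
      (fun N s => ¬ AllSplit Λ r S (((max |C| 1) ^ 2) ^ N) s)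
      (fun N T s h1 h2 h3 h4 => h3 (allSplit_mono Λ r S (pow_bound C h2.le) s h4))
      (count r S Λ hΛ hr hS κ C) hF hθ hτ hθk
    refine ⟨δ, hδ, N₀, fun N hN => le_trans (le_of_eq ?_) (hN₀ N hN)⟩
    simp only [not_not]
  · obtain ⟨θ, hθ, h⟩ := keep_one ε hε
    refine ⟨θ, hθ, fun r S Λ hΛ hr hS C F hF => ?_⟩
    obtain ⟨N₀, hN₀⟩ := h 1 (fun T s => ¬ AllSplit Λ r S (C ^ T) s)
      (fun N s => ¬ AllSplit Λ r S (((max |C| 1) ^ 2) ^ N) s)
      (fun N T s h1 h2 h3 h4 => h3 (allSplit_mono Λ r S (pow_bound C h2.le) s h4))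
      (count r S Λ hΛ hr hS 1 C) F hF
    refine ⟨N₀, fun N hN => le_trans ?_ (hN₀ N hN)⟩
    have hsub : {m : ℕ | 1 ≤ m ∧ m ≤ N ∧ ¬ ∀ s : ℕ, 1 ≤ s → |(s : ℝ) - F m| ≤ (F m : ℝ) ^ θ →
        AllSplit Λ r S (C ^ s) (fun _ => s)} ⊆ {m : ℕ | 1 ≤ m ∧ m ≤ N ∧ ¬ ∀ (s : Fin 1 → ℕ) (T : ℕ), 1 ≤ T →
        (∀ i, T ≤ s i ∧ s i ≤ 1 * T) → (∀ i, |(s i : ℝ) - F m| ≤ (F m : ℝ) ^ θ) →
          ¬ ¬ AllSplit Λ r S (C ^ T) s} := by
      rintro m ⟨h1, h2, h3⟩
      refine ⟨h1, h2, fun h4 => h3 fun s hs hw' => ?_⟩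
      exact not_not.1 (h4 (fun _ => s) s hs (fun _ => ⟨le_rfl, (one_mul s).ge⟩) (fun _ => hw'))
    exact_mod_cast Set.ncard_le_ncard hsub ((Set.finite_Icc 1 N).subset fun m hm => ⟨hm.1, hm.2.1⟩)

end Pool.Agent.Results.MP_cbe134_nt.AliquotSums
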