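import Pool.Agent.Run7.h102.DG.Grow

/-!
# MP_cbe134_nt: words in the depth one generators, exponential growth

The depth graded Lie algebra of motivic multiple zeta values consists of polynomials, the part of depth `r` of
polynomials in `r` variables. Its universal enveloping algebra acts by the linearized Ihara action `∘`; the depth one
elements `f_b = x^(2b)`, `b ≥ 1` (of weight `2b + 1`), are dual to the zeta values `ζ(2b + 1)`. Let `U_(r,n)` be the
space spanned by the words `f_(b_1) ∘ (f_(b_2) ∘ ⋯ ∘ f_(b_r))` with `b_1 + … + b_r = n` (depth `r`, weight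
`2 n + r`). The Broadhurst-Kreimer conjecture predicts that the generating series of the dimensions of the
`U_(r,n)` is `1 / (1 - O(X) Y + S(X) Y²)`, which for `Y = 1` grows like `1.308^N` in the weight `N`.

**Theorem.** Let `p` be a prime and let `s(m)` be the sum of the digits of `m` in base `p`.
(1) The words `f_(b_1) ∘ ⋯ ∘ f_(b_r)` with `s(2 b_1) ≤ s(2 b_2) ≤ … ≤ s(2 b_r)` are linearly independent. So the
generating series of the dimensions is, coefficientwise, at least `∏_k 1 / (1 - Y ∑_(s(2b) = k) X^(2b+1))`.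
(2) Let `B` be a set of positive integers such that `p` divides `binom(2b, 2a)` for all `a < b` in `B` (for instance all
`b` with `s(2b) = k`). Then all the words in the `f_b`, `b ∈ B`, are linearly independent.
(3) For all `N ≥ 5`, `∑_r dim U_(r,(N-r)/2) ≥ 1.29^N / 10`.

So (Brown) at least `1.29^N / 10` motivic multiple zeta values of weight `N` are linearly independent modulo smaller
depth and `ζ(2)` and can be detected by the depth one elements alone; and for `B` as in (2) the totally odd motivic
multiple zeta values `ζ(2 b_1 + 1, …, 2 b_r + 1)`, `b_i ∈ B`, are linearly independent modulo smaller depth and `ζ(2)`,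
for example all those with entries in `3, 5, 7, 11, 13, 19, 29, 31, 37, 55, …` (one more than a sum of two powers of
`3`).

Proof. The coefficient of `f_b ∘ g` at a monomial with the exponents `2 a_1, …, 2 a_r` is a combination of
coefficients of `g` with the factors `binom(2b, 2 a_i)`. By the theorem of Kummer these vanish modulo `p` unless `a_i = b`
or `s(2 a_i) < s(2 b)`. If no `s(2 a_i)` is smaller than `s(2 b)` then only one term remains, the coefficient of `g` at
`2 a_2, …, 2 a_r` for `a_1 = b`. So the matrix of the coefficients of the words in (1) at the monomials of the same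
words is triangular modulo `p` with ones on the diagonal. For (3) take `p = 3` and `B = {1, 2, 3, 5, 6}`.

The comparison of the words (functions) with their coefficients is from the starting library `Pool.Agent.N568.BK`. The
variables are numbered from the right: `y_0 = x_r`, …, `y_(r-1) = x_1`.
-/

set_option autoImplicit false

namespace Pool.Agent.Results.MP_cbe134_nt.FreeWords

open Finset

/-- the variable `y_j` is dropped -/
def omit' (j : ℕ) (y : ℕ → ℚ) : ℕ → ℚ := fun i => if i < j then y i else y (i + 1)

/-- The linearized Ihara action `f ∘ g` for `f = x^(2b)` and a polynomial `g` in `y_0, …, y_(s-1)`. -/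
def circ (s b : ℕ) (g : (ℕ → ℚ) → ℚ) (y : ℕ → ℚ) : ℚ :=
  y s ^ (2 * b) * g y +
    ∑ j ∈ range s, (y j - y (j + 1)) ^ (2 * b) * (g (omit' j y) - g (omit' (j + 1) y))

/-- The word `f_(b_1) ∘ (f_(b_2) ∘ ⋯ ∘ f_(b_r))`. -/
def word : List ℕ → (ℕ → ℚ) → ℚ
  | [], _ => 1
  | b :: u, y => circ u.length b (word u) y

/-- `U_(r,n)`: the space spanned by the words of depth `r` and weight `2 n + r` -/
def U (r n : ℕ) : Submodule ℚ ((ℕ → ℚ) → ℚ) :=
  Submodule.span ℚ {g | ∃ b : List ℕ, b.length = r ∧ b.sum = n ∧ (∀ x ∈ b, 1 ≤ x) ∧ g = word b}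

lemma word_eq : ∀ b : List ℕ, word b = Pool.Agent.N568.BK.wd b
  | [] => rfl
  | b :: u => by
      funext y
      unfold word Pool.Agent.N568.BK.wd
      rw [word_eq u]
      rfl

lemma srt_of (σ : ℕ → ℕ) : ∀ w : List ℕ, w.Pairwise (fun a b => σ a ≤ σ b) → Run7.h102.DG.Srt σ w
  | [], _ => trivial
  | _ :: w, h => by
      rw [List.pairwise_cons] at h
      exact ⟨h.1, srt_of σ w h.2⟩

/-- **Words in the depth one generators.** Let `p` be a prime.
(1) The words `b = (b_1, …, b_r)`, `b_i ≥ 1`, such that the digit sums of `2 b_1, …, 2 b_r` in base `p` do not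
decrease, are linearly independent.
(2) Let `p` divide `binom(2b, 2a)` for all `a < b` in `B`. The words in `B` are linearly independent.
(3) `1.29^N ≤ 10 ∑_(2n+r=N) dim U_(r,n)` for `N ≥ 5`. -/
theorem result (p : ℕ) (hp : p.Prime) :
    (∀ r : ℕ, LinearIndependent ℚ (fun b : {b : List ℕ // b.length = r ∧ (∀ x ∈ b, 1 ≤ x) ∧
      b.Pairwise (fun x y => (p.digits (2 * x)).sum ≤ (p.digits (2 * y)).sum)} => word b.1)) ∧
    (∀ B : Set ℕ, (∀ x ∈ B, 1 ≤ x) → (∀ a ∈ B, ∀ b ∈ B, a < b → p ∣ (2 * b).choose (2 * a)) → ∀ r : ℕ,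
      LinearIndependent ℚ (fun b : {b : List ℕ // b.length = r ∧ ∀ x ∈ b, x ∈ B} => word b.1)) ∧
    ∀ N : ℕ, 5 ≤ N → (1.29 : ℝ) ^ N ≤
      10 * ∑ n ∈ range (N / 2 + 1), (Module.finrank ℚ (U (N - 2 * n) n) : ℝ) := by
  refine ⟨fun r => ?_, fun B _ hB r => ?_, fun N hN => ?_⟩
  · have h := Run7.h102.DG.linind p hp Set.univ (fun x => (p.digits (2 * x)).sum)
      (fun a _ b _ hab hle => Run7.h102.DG.dvd_choose p hp _ _ (by omega) hle) r
      (fun b : List ℕ => b.length = r ∧ (∀ x ∈ b, 1 ≤ x) ∧
        b.Pairwise (fun x y => (p.digits (2 * x)).sum ≤ (p.digits (2 * y)).sum))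
      (fun w hw => ⟨hw.1, fun _ _ => Set.mem_univ _, srt_of _ w hw.2.2⟩)
    simpa only [word_eq] using h
  · have h := Run7.h102.DG.linind p hp B (fun _ => 0) (fun a ha b hb hab _ => by
        rcases lt_or_gt_of_ne hab with h | h
        · exact hB a ha b hb h
        · rw [Nat.choose_eq_zero_of_lt (by omega)]
          exact dvd_zero p) r
      (fun b : List ℕ => b.length = r ∧ ∀ x ∈ b, x ∈ B)
      (fun w hw => ⟨hw.1, hw.2, Run7.h102.DG.srt_const 0 w⟩)
    simpa only [word_eq] using h
  · have h := Run7.h102.DG.growth N hN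
    have hU : ∀ r n, U r n = Run7.h102.DG.U r n := by
      intro r n
      unfold U Run7.h102.DG.U
      simp only [word_eq]
    have h129 : (1.29 : ℝ) = 129 / 100 := by norm_num
    rw [h129]
    refine h.trans_eq ?_
    congr 1
    exact sum_congr rfl fun n _ => by rw [hU]

end Pool.Agent.Results.MP_cbe134_nt.FreeWords
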