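import Pool.Agent.Run7.h430.TO.Scales
import Pool.Agent.Results.MP_cbe134_nt.ManyVariables

/-!
# MP_cbe134_nt: the depth graded space along tuples of orbits of Euler's function

A pattern in `k` variables is a list of letters `b + u_1 s_1 + ... + u_k s_k`; at a tuple `s` of natural numbers it gives an
index. The first letters may be constant. Let `Λ` be a finite set of admissible patterns of the same weight and of depth at
most `r`. We consider the relations `∑ c_w ζ(w(s)) = 0`, `w ∈ Λ`, with integers `c_w` of absolute value at most `C ^ T`, where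
`T` is the size of `s`: the relations of exponential height between the classes of the values of depth `r` in
`Fil_r / Fil_{r - 1}`.

Let `φ_j` be the `j`-th iterate of Euler's function, `φ_0(m) = m`, let `F_1, ..., F_k` be positive multiplicative functions of
the order `m ^ (1 + o(1))` with `F_i p ≤ M p` for the large primes `p` and different values at different large primes, for
example the identity, Euler's function or the sum of the divisors, and let `0 ≤ θ`, `k θ < 1`. There is `K(N)` tending to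
infinity such that for all but `o(N ^ k)` of the tuples `m ∈ [1, N] ^ k` the following holds for ALL the tuples `s` near the
orbits of `m`, `|s_i - a_i F_i(φ_{j_i}(m_i))| ≤ N ^ θ` for some iterates `j_i ≤ K(N)` and multiples `1 ≤ a_i ≤ K(N)`, in a cone
`T ≤ s_i ≤ κ T`: every such relation splits: its part of depth `r` is a combination `∑ ρ(u, v) (u ⧢ v)` of shuffles of
constant indices `u` and patterns `v` whose first letter is not constant, where for every `v` the number `∑_u ρ(u, v) ζ(u)` is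
in the span of the values of the same weight and of smaller depth. If the patterns of depth `r` have at most one constant
letter in front then `c_w = 0` for all `w` of depth `r` (part 3 of `ManyVariables`).

The iterates of Euler's function are not multiplicative, and the tuples of the values along the orbits form a thin set and are
taken with very large multiplicities. So this does not follow from the number of the exceptional tuples (`ManyVariables`: at
most `K N ^ (k - 1)` in `[N, κ N] ^ k`), which is used. The tool is `Pool.Agent.N760.IT` (helper760, one orbit), transferred to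
tuples of orbits, with multiples and windows, in `Run7/h430/TO`.
-/

set_option autoImplicit false

namespace Pool.Agent.Results.MP_cbe134_nt.TotientOrbits

open Filter Topology
open Pool.Agent.Results.MP_cbe134_nt.ManyVariables (mzv Letter index AdmissiblePattern Splits exceptional constantPart)

/-- A positive multiplicative function of at most polynomial growth, at most `M p` at the large primes `p` and with different
values at different large primes, and equal to `m ^ (1 + o(1))` for all `m`. -/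
structure Moderate (f : ℕ → ℕ) : Prop where
  mul : ∀ m n : ℕ, Nat.Coprime m n → f (m * n) = f m * f n
  pos : ∀ m : ℕ, 1 ≤ m → 1 ≤ f m
  growth : ∃ C D : ℕ, ∀ m : ℕ, 1 ≤ m → f m ≤ C * m ^ D
  prime : ∃ P M : ℕ, ∀ p : ℕ, P ≤ p → p.Prime → f p ≤ M * p ∧ ∀ q : ℕ, P ≤ q → q.Prime → f q = f p → q = p
  order : ∀ ε : ℝ, 0 < ε → ∃ C : ℝ, 1 ≤ C ∧ ∀ m : ℕ, 1 ≤ m → (m : ℝ) ^ (1 - ε) ≤ C * f m ∧ (f m : ℝ) ≤ C * (m : ℝ) ^ (1 + ε)

/-- the value of `f` at the `j`-th iterate of Euler's function -/
def orb (f : ℕ → ℕ) (j m : ℕ) : ℕ := f (Nat.totient^[j] m)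

/-- the tuple `t` of positive integers is within `w` of a tuple of multiples `a i F i (φ_{j i} (m i))`, `j i, a i ≤ J` -/
def Near {k : ℕ} (F : Fin k → ℕ → ℕ) (J : ℕ) (w : ℝ) (m t : Fin k → ℕ) : Prop :=
  ∃ j a : Fin k → ℕ, (∀ i, j i ≤ J) ∧ (∀ i, 1 ≤ a i ∧ a i ≤ J) ∧
    ∀ i, 1 ≤ t i ∧ |(t i : ℝ) - a i * orb (F i) (j i) (m i)| ≤ w

theorem lm_of {f : ℕ → ℕ} (hf : Moderate f) : Pool.Agent.N733.TG.LM f := ⟨hf.mul, hf.pos, hf.growth, hf.prime⟩

theorem of_lm {f : ℕ → ℕ} (hf : Pool.Agent.N733.TG.LM f) (hl : Run7.h430.TO.Lin f) : Moderate f :=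
  ⟨hf.mul, hf.pos, hf.growth, hf.prime, hl⟩

theorem moderate_examples : Moderate (fun m => m) ∧ Moderate Nat.totient ∧ Moderate (fun m => ∑ d ∈ m.divisors, d) :=
  ⟨of_lm Pool.Agent.N760.IT.lm_id Run7.h430.TO.lin_id, of_lm Pool.Agent.N733.TG.lm_totient Run7.h430.TO.lin_totient,
    of_lm Pool.Agent.N733.TG.lm_sigma Run7.h430.TO.lin_sigma⟩

/-- Every relation between the multiple zeta values of the patterns `w ∈ Λ` at the tuple `s` with integers `c_w` of absolute
value at most `H` splits; and `c_w = 0` for all `w` of depth `r` if the patterns of depth `r` have at most one constant letter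
in front. -/
def AllSplit {k : ℕ} (Λ : Finset (List (Letter k))) (r : ℕ) (S : Letter k) (H : ℝ) (s : Fin k → ℕ) : Prop :=
  ∀ c : List (Letter k) → ℤ, (∀ w, w ∉ Λ → c w = 0) → (∀ w ∈ Λ, |(c w : ℝ)| ≤ H) →
    ∑ w ∈ Λ, (c w : ℝ) * mzv (index s w) = 0 → Splits Λ r S c ∧
      ((∀ w ∈ Λ, w.length = r → (constantPart w).length ≤ 1) → ∀ w, w.length = r → c w = 0)

lemma allSplit_mono {k : ℕ} (Λ : Finset (List (Letter k))) (r : ℕ) (S : Letter k) {H H' : ℝ} (h : H ≤ H')
    (s : Fin k → ℕ) (hs : AllSplit Λ r S H' s) : AllSplit Λ r S H s :=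
  fun c h1 h2 h3 => hs c h1 (fun w hw => (h2 w hw).trans h) h3

lemma pow_bound (C : ℝ) {N T : ℕ} (h : T ≤ 2 * N) : C ^ T ≤ ((max |C| 1) ^ 2) ^ N := by
  have h5 : (1 : ℝ) ≤ max |C| 1 := le_max_right _ _
  calc C ^ T ≤ |C ^ T| := le_abs_self _
    _ = |C| ^ T := abs_pow C T
    _ ≤ (max |C| 1) ^ T := pow_le_pow_left₀ (abs_nonneg C) (le_max_left _ _) T
    _ ≤ (max |C| 1) ^ (2 * N) := pow_le_pow_right₀ h5 h
    _ = _ := pow_mul _ _ _

/-- Let `Λ` be a finite set of admissible patterns in `k ≥ 1` variables of the same weight `S` and of depth at most `r`, `κ` a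
natural number, `C` a real number, `F_1, ..., F_k` `Moderate` and `θ ≥ 0`, `k θ < 1`. There is `K(N)` tending to infinity such
that for all but `o(N ^ k)` of the tuples `m` of integers in `[1, N]`: for ALL tuples `s` near the orbits of `m` (iterates and
multiples up to `K(N)`, windows `N ^ θ`) and all `T ≥ 1` with `T ≤ s_i ≤ κ T` for all `i`, every relation
`∑ c_w ζ(w(s)) = 0`, `w ∈ Λ`, with integers `c_w` of absolute value at most `C ^ T` splits, and `c_w = 0` for all `w` of depth
`r` if the patterns of depth `r` have at most one constant letter in front. The identity, Euler's function and the sum of the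
divisors are `Moderate`. -/
theorem result :
    (∀ {k : ℕ}, 1 ≤ k → ∀ (r : ℕ) (S : Letter k) (Λ : Finset (List (Letter k))), (∀ w ∈ Λ, AdmissiblePattern w) →
      (∀ w ∈ Λ, w.length ≤ r) → (∀ w ∈ Λ, w.sum = S) → ∀ (κ : ℕ) (C : ℝ) (F : Fin k → ℕ → ℕ), (∀ i, Moderate (F i)) →
      ∀ θ : ℝ, 0 ≤ θ → k * θ < 1 → ∃ K : ℕ → ℕ, Tendsto K atTop atTop ∧ ∀ ε : ℝ, 0 < ε → ∃ N₀ : ℕ, ∀ N : ℕ, N₀ ≤ N →
      ({m : Fin k → ℕ | (∀ i, 1 ≤ m i ∧ m i ≤ N) ∧ ¬ ∀ (s : Fin k → ℕ) (T : ℕ), Near F (K N) ((N : ℝ) ^ θ) m s → 1 ≤ T →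
        (∀ i, T ≤ s i ∧ s i ≤ κ * T) → AllSplit Λ r S (C ^ T) s}.ncard : ℝ) ≤ ε * (N : ℝ) ^ k) ∧
    (Moderate (fun m => m) ∧ Moderate Nat.totient ∧ Moderate (fun m => ∑ d ∈ m.divisors, d)) := by
  refine ⟨fun {k} hk r S Λ hΛ hr hS κ C F hF θ hθ hθk => ?_, moderate_examples⟩
  obtain ⟨hfew, -, hone⟩ := ManyVariables.result r S Λ hΛ hr hS
  obtain ⟨K, hK⟩ := hfew (2 * κ)
  obtain ⟨N₁, hN₁⟩ := hK ((max |C| 1) ^ 2)
  have hex : ∀ (N : ℕ) (H : ℝ), {s : Fin k → ℕ | (∀ j, N ≤ s j ∧ s j ≤ (2 * κ) * N) ∧ ¬ AllSplit Λ r S H s} ⊆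
      exceptional Λ r S (2 * κ) N H := by
    rintro N H s ⟨hs1, hs2⟩
    unfold AllSplit at hs2
    push Not at hs2
    obtain ⟨c, hP1, hP2, hP3, hP4⟩ := hs2
    refine ⟨hs1, c, hP1, hP2, hP3, fun hP => ?_⟩
    obtain ⟨h6, w, hw, hcw⟩ := hP4 hP
    exact hcw (hone h6 c hP w hw)
  have hfin : ∀ (N : ℕ) (H : ℝ), (exceptional Λ r S (2 * κ) N H).Finite := by
    intro N H
    refine (Set.Finite.pi (fun _ : Fin k => Set.finite_Iic (2 * κ * N))).subset ?_
    intro s hs j _
    exact (hs.1 j).2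
  obtain ⟨K', hK', h2⟩ := Run7.h430.TO.orb_scales hk κ (fun T s => ¬ AllSplit Λ r S (C ^ T) s)
    (fun N s => ¬ AllSplit Λ r S (((max |C| 1) ^ 2) ^ N) s)
    (fun N T s h1 h2 h3 h4 => h3 (allSplit_mono Λ r S (pow_bound C h2.le) s h4))
    ⟨K, N₁, fun N hN => (Set.ncard_le_ncard (hex N _) (hfin N _)).trans (hN₁ N hN)⟩
    (fun i => lm_of (hF i)) (fun i => (hF i).order) hθ hθk
  refine ⟨K', hK', fun ε hε => ?_⟩
  obtain ⟨N₀, hN₀⟩ := h2 ε hε
  refine ⟨N₀, fun N hN => le_trans (le_of_eq ?_) (hN₀ N hN)⟩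
  congr 2
  ext m
  constructor
  · rintro ⟨hm, h3⟩
    push Not at h3
    obtain ⟨s, T, a1, a2, a3, a4⟩ := h3
    exact ⟨hm, s, T, a1, a2, a3, a4⟩
  · rintro ⟨hm, s, T, a1, a2, a3, a4⟩
    exact ⟨hm, fun h => a4 (h s T a1 a2 a3)⟩

end Pool.Agent.Results.MP_cbe134_nt.TotientOrbits
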