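import Mathlib
import Pool.Agent.Run7.h867.MZ.DepthAdm
import Pool.Agent.Run7.h867.MZ.General

/-!
# Typical multiple zeta values of given weights and depths have no small polynomial relation

There are `C(w-2, d-1)` multiple zeta values of weight `w` and depth `d`.  For every finite set `S` of monomials in `N`
variables, every `H ≥ 1`, all weights `W_i` and depths `D_i` with `√(5 W_i) ≤ κ min(D_i, W_i - D_i)` the proportion of
the `N`-tuples of indices of weights `W_i` and depths `D_i` for which some nonzero integer polynomial `P` with monomials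
in `S` and coefficients at most `H` in absolute value vanishes at the multiple zeta values `v` of the tuple is at most
`C(|S|,2)·(2 log_2(|S| H) + 1)·κ`; outside these exceptional tuples every monomial of such a `P` is at most
`|S|·|P(v)|` in absolute value.

The proof rests on the inequalities `(Z(u) - P(v)) ζ(u p v) ≤ P(v) ζ(u z v)` and
`(P(v) - Z(u)) ζ(u z v) ≤ Z(u) ζ(u p v)` for words in the letters `z = dt/t`, `p = dt/(1-t)`, where `Z(u)` is the number
of the letters `z` of `u` and `P(v)` the number of the letters `p` of `v`: exchanging a letter `z` near the beginning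
with a letter `p` near the end of the word doubles the value at least.
-/

set_option autoImplicit false

namespace Pool.Agent.Results.MP_cbe134_nt.TypicalValuesOfGivenDepth

open Finset Filter Topology

/-- the sum of `∏_j 1 / n_j ^ k_j` over `m > n_1 > ... > n_r ≥ 1` (it is `1` for the empty index) -/
noncomputable def trunc : List ℕ → ℕ → ℝ
  | [], _ => 1
  | a :: s, m => ∑ j ∈ Finset.Ico 1 m, 1 / (j : ℝ) ^ a * trunc s j

/-- the multiple zeta value `ζ(k_1, ..., k_r)`, the limit of the truncated sums -/
noncomputable def zeta (s : List ℕ) : ℝ := limUnder atTop (trunc s)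

/-- the admissible indices of weight `w` and depth `d`: `k_j ≥ 1`, `k_1 ≠ 1`, `k_1 + ... + k_d = w` -/
def indices (w d : ℕ) : Set (List ℕ) :=
  {s | s ≠ [] ∧ (∀ a ∈ s, 1 ≤ a) ∧ s.head? ≠ some 1 ∧ s.sum = w ∧ s.length = d}

/-- the tuples of indices of weights `W_1, ..., W_N` and depths `D_1, ..., D_N` with multiple zeta values
`v_1, ..., v_N` for which there is a nonzero integer polynomial `P` with monomials in `S` and coefficients at most `H`
in absolute value such that `P(v) = 0`, or `|S|·|P(v)|` is smaller than the absolute value of a monomial of `P` at `v` -/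
def exceptional {N : ℕ} (S : Finset (Fin N →₀ ℕ)) (H : ℕ) (W D : Fin N → ℕ) : Set (Fin N → List ℕ) :=
  {u | (∀ i, u i ∈ indices (W i) (D i)) ∧ ∃ P : MvPolynomial (Fin N) ℤ, P ≠ 0 ∧ P.support ⊆ S ∧
    (∀ α, |P.coeff α| ≤ H) ∧ (MvPolynomial.aeval (fun i => zeta (u i)) P = 0 ∨
      ∃ α ∈ P.support, (#S : ℝ) * |MvPolynomial.aeval (fun i => zeta (u i)) P| < |∏ i, zeta (u i) ^ α i|)}

theorem trunc_same (s : List ℕ) : ∀ m, trunc s m = Run7.h867.MZ.tr s m := by
  induction s with
  | nil => intro m; rfl
  | cons a s ih =>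
    intro m
    rw [trunc, Run7.h867.MZ.tr]
    exact sum_congr rfl fun j _ => by rw [ih]

theorem zeta_same (s : List ℕ) : zeta s = Run7.h867.MZ.mz s := by
  have : trunc s = Run7.h867.MZ.tr s := funext (trunc_same s)
  rw [zeta, Run7.h867.MZ.mz, this]

/-- there are `C(w-2, d-1)` indices of weight `w` and depth `d`, their values are well-defined and positive, and the
number of the exceptional tuples of given weights and depths is small -/
theorem result :
    (∀ w d : ℕ, 1 ≤ d → d < w → (indices w d).ncard = (w - 2).choose (d - 1)) ∧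
    (∀ w d : ℕ, 1 ≤ d → d < w → ∀ s ∈ indices w d, Tendsto (trunc s) atTop (𝓝 (zeta s)) ∧ 0 < zeta s) ∧
    ∀ (N : ℕ) (S : Finset (Fin N →₀ ℕ)) (H : ℕ) (W D : Fin N → ℕ) (κ : ℝ), S.Nonempty → 1 ≤ H → 0 ≤ κ →
      (∀ i, 1 ≤ D i ∧ D i < W i ∧ √(5 * (W i : ℝ)) ≤ κ * ((min (D i) (W i - D i) : ℕ) : ℝ)) →
      (exceptional S H W D).Finite ∧ ((exceptional S H W D).ncard : ℝ) ≤
        ((#S).choose 2 : ℝ) * (2 * Real.logb 2 (#S * H) + 1) * κ * ∏ i, (((W i - 2).choose (D i - 1) : ℕ) : ℝ) := by
  classical
  have hind : ∀ w d, 1 ≤ d → d < w → indices w d = (Run7.h867.MZ.AD (w - 2) (d - 1) : Set (List ℕ)) := by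
    intro w d hd hw
    ext s
    rw [mem_coe, Run7.h867.MZ.mem_AD, show w - 2 + 2 = w by omega, show d - 1 + 1 = d by omega]
    unfold indices Run7.h867.MZ.adm
    simp only [Set.mem_setOf_eq]
    tauto
  refine ⟨?_, ?_, ?_⟩
  · intro w d hd hw
    rw [hind w d hd hw, Set.ncard_coe_finset, Run7.h867.MZ.card_AD]
  · intro w d hd hw s hs
    have h1 : trunc s = Run7.h867.MZ.tr s := funext (trunc_same s)
    rw [hind w d hd hw, mem_coe, Run7.h867.MZ.mem_AD] at hs
    rw [h1, zeta_same]
    exact ⟨Run7.h867.MZ.tendsto_tr hs.1, Run7.h867.MZ.mz_pos hs.1⟩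
  · intro N S H W D κ hS hH hκ0 hWD
    have hmain := Run7.h867.GT.main (fun i => Run7.h867.MZ.AD (W i - 2) (D i - 1)) (fun i => by
        rw [← card_pos, Run7.h867.MZ.card_AD]
        have := hWD i
        exact Nat.choose_pos (by omega)) Run7.h867.MZ.mz (fun i l hl => by
        exact (Run7.h867.MZ.mz_pos (Run7.h867.MZ.mem_AD.1 hl).1).ne') κ hκ0 (fun i x => by
        obtain ⟨h1, h2, h3⟩ := hWD i
        refine (Run7.h867.MZ.anti_AD h1 h2 x).trans ?_
        refine mul_le_mul_of_nonneg_left ?_ (Nat.cast_nonneg _)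
        have h4 : (0 : ℝ) < ((min (D i) (W i - D i) : ℕ) : ℝ) := by
          have : 0 < min (D i) (W i - D i) := lt_min (by omega) (by omega)
          exact_mod_cast this
        rw [div_le_iff₀ h4]
        exact h3) S H hH hS
    have hsub : exceptional S H W D ⊆ (((Fintype.piFinset fun i => Run7.h867.MZ.AD (W i - 2) (D i - 1)).filter fun u =>
        Run7.h867.GT.Bad S H fun i => Run7.h867.MZ.mz (u i) : Finset (Fin N → List ℕ)) : Set (Fin N → List ℕ)) := by
      intro u hu
      obtain ⟨hu1, P, hP0, hP, hc, hor⟩ := hu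
      rw [mem_coe, mem_filter, Fintype.mem_piFinset]
      have hmem : ∀ i, u i ∈ Run7.h867.MZ.AD (W i - 2) (D i - 1) := by
        intro i
        have := hu1 i
        rw [hind (W i) (D i) (hWD i).1 (hWD i).2.1, mem_coe] at this
        exact this
      refine ⟨hmem, P, hP0, hP, hc, ?_⟩
      simp only [zeta_same] at hor
      exact hor
    refine ⟨(Finset.finite_toSet _).subset hsub, ?_⟩
    have h1 := Set.ncard_le_ncard hsub (Finset.finite_toSet _)
    rw [Set.ncard_coe_finset] at h1
    calc ((exceptional S H W D).ncard : ℝ) ≤ _ := Nat.cast_le.2 h1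
      _ ≤ _ := hmain
      _ = _ := by
        congr 1
        exact prod_congr rfl fun i _ => by rw [Run7.h867.MZ.card_AD]

end Pool.Agent.Results.MP_cbe134_nt.TypicalValuesOfGivenDepth
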